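import Mathlib

/-!
# Finitely generated domains with nonzero Jacobson radical over countable fields

Let `k` be a countable field and let `r_0, r_1, ...` enumerate the free algebra `k<x,y,z>`.
On the free `k[X]`-module `M` with basis the words in two letters (`false`, `true`) let `x`
(resp. `y`) remove a leading letter `false` (resp. `true`), killing the other words.  By recursion
on the length of words we construct an operator `E` on `M` such that, with `z = E y`,
`y x^j z - z x^j y = (r_j y)^(j+3) (1 - r_j y)^(-1)` for all `j` (here `r_j` is evaluated at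
`x, y, z`).  Hence each `1 - r_j y` is invertible in the algebra `R` generated by `x, y, z`, that
is, `y` lies in the Jacobson radical of `R`.  Leading terms (with respect to the length of words)
of elements of `R` multiply as in the polynomial ring `k<x,y>[X]`, with `z` having leading term
`X y`, because the leading terms `z x^j y - y x^j z` of the relations generate the kernel of
`k<x,y,z> → k<x,y>[X]`, `z ↦ X y`.  So `R` is a domain.
-/

set_option autoImplicit false

namespace Pool.Agent.Results.MP_2e9a62_al.FGDomain

open Polynomial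

universe u

noncomputable section

section Ops

variable (k : Type u) [Field k]

/-- Finitely supported functions on words in two letters, coefficients in `k[X]`. -/
abbrev M : Type u := List Bool →₀ k[X]

/-- Operators on `M`. -/
abbrev Op : Type u := Module.End k[X] (M k)

variable {k}

/-- Linear extension of a function on words. -/
def ext (f : List Bool → M k) : Op k := Finsupp.linearCombination k[X] f

theorem ext_single (f : List Bool → M k) (w : List Bool) (c : k[X]) :
    ext f (Finsupp.single w c) = c • f w := by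
  simp [ext]

/-- words of length `< n` -/
def F (n : ℕ) : Submodule k[X] (M k) := Finsupp.supported k[X] k[X] {w | w.length < n}

theorem single_mem_F {w : List Bool} {n : ℕ} (h : w.length < n) (c : k[X]) :
    Finsupp.single w c ∈ (F n : Submodule k[X] (M k)) := 
  Finsupp.single_mem_supported _ _ h

theorem F_mono {m n : ℕ} (h : m ≤ n) : (F m : Submodule k[X] (M k)) ≤ F n :=
  Finsupp.supported_mono (fun w (hw : w.length < m) => lt_of_lt_of_le hw h)

theorem F_zero : (F 0 : Submodule k[X] (M k)) = ⊥ := by
  rw [F]
  have : {w : List Bool | w.length < 0} = ∅ := by ext; simp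
  rw [this, Finsupp.supported_empty]

/-- to check that a linear map sends `F n` to a submodule it suffices on words -/
theorem F_map {n : ℕ} {T : Op k} {N : Submodule k[X] (M k)}
    (h : ∀ w : List Bool, w.length < n → T (Finsupp.single w 1) ∈ N) {v : M k} (hv : v ∈ F n) :
    T v ∈ N := by
  have : (F n : Submodule k[X] (M k)) ≤ N.comap T := by
    rw [F, Finsupp.supported_eq_span_single, Submodule.span_le]
    rintro _ ⟨w, hw, rfl⟩
    exact h w hw
  exact this hv

theorem F_ext {n : ℕ} {T S : Op k}
    (h : ∀ w : List Bool, w.length < n → T (Finsupp.single w 1) = S (Finsupp.single w 1)) {v : M k}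
    (hv : v ∈ F n) : T v = S v := by
  have : (F n : Submodule k[X] (M k)) ≤ LinearMap.eqLocus T S := by
    rw [F, Finsupp.supported_eq_span_single, Submodule.span_le]
    rintro _ ⟨w, hw, rfl⟩
    exact h w hw
  exact this hv

theorem mem_some_F (v : M k) : ∃ n, v ∈ (F n : Submodule k[X] (M k)) := by
  induction v using Finsupp.induction_linear with
  | zero => exact ⟨0, Submodule.zero_mem _⟩
  | add f g hf hg =>
    obtain ⟨n, hn⟩ := hf
    obtain ⟨m, hm⟩ := hg
    exact ⟨max n m, Submodule.add_mem _ (F_mono (le_max_left _ _) hn) (F_mono (le_max_right _ _) hm)⟩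
  | single w c => exact ⟨w.length + 1, single_mem_F (Nat.lt_succ_self _) c⟩

theorem op_ext {T S : Op k} (h : ∀ w : List Bool, T (Finsupp.single w 1) = S (Finsupp.single w 1)) :
    T = S := by
  ext w
  simp [h w]

/-- remove a leading `false` -/
def xo : Op k := ext (fun w => match w with
  | false :: t => Finsupp.single t 1
  | _ => 0)

/-- remove a leading `true` -/
def yo : Op k := ext (fun w => match w with
  | true :: t => Finsupp.single t 1
  | _ => 0)

/-- add a leading letter -/
def lo (b : Bool) : Op k := ext (fun w => Finsupp.single (b :: w) 1)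

@[simp] theorem xo_nil (c : k[X]) : xo (Finsupp.single [] c : M k) = 0 := by simp [xo, ext_single]
@[simp] theorem xo_false (w : List Bool) (c : k[X]) :
    xo (Finsupp.single (false :: w) c : M k) = Finsupp.single w c := by simp [xo, ext_single]
@[simp] theorem xo_true (w : List Bool) (c : k[X]) :
    xo (Finsupp.single (true :: w) c : M k) = 0 := by simp [xo, ext_single]
@[simp] theorem yo_nil (c : k[X]) : yo (Finsupp.single [] c : M k) = 0 := by simp [yo, ext_single]
@[simp] theorem yo_true (w : List Bool) (c : k[X]) :
    yo (Finsupp.single (true :: w) c : M k) = Finsupp.single w c := by simp [yo, ext_single]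
@[simp] theorem yo_false (w : List Bool) (c : k[X]) :
    yo (Finsupp.single (false :: w) c : M k) = 0 := by simp [yo, ext_single]
@[simp] theorem lo_single (b : Bool) (w : List Bool) (c : k[X]) :
    lo b (Finsupp.single w c : M k) = Finsupp.single (b :: w) c := by simp [lo, ext_single]

theorem xo_lo_false : (xo * lo false : Op k) = 1 := op_ext fun w => by simp
theorem xo_lo_true : (xo * lo true : Op k) = 0 := op_ext fun w => by simp
theorem yo_lo_true : (yo * lo true : Op k) = 1 := op_ext fun w => by simp
theorem yo_lo_false : (yo * lo false : Op k) = 0 := op_ext fun w => by simp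

/-- `T` lowers the length by at least `n`. -/
def Low (n : ℕ) (T : Op k) : Prop := ∀ (m : ℕ) (v : M k), v ∈ F m → T v ∈ F (m - n)

theorem Low.mul {a b : ℕ} {T S : Op k} (hT : Low a T) (hS : Low b S) : Low (a + b) (T * S) := by
  intro m v hv
  have := hT _ _ (hS m v hv)
  rwa [Nat.sub_sub, add_comm b a] at this

theorem Low.mono {a b : ℕ} {T : Op k} (hT : Low a T) (h : b ≤ a) : Low b T :=
  fun m v hv => F_mono (Nat.sub_le_sub_left h m) (hT m v hv)

theorem Low.add {a : ℕ} {T S : Op k} (hT : Low a T) (hS : Low a S) : Low a (T + S) :=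
  fun m v hv => Submodule.add_mem _ (hT m v hv) (hS m v hv)

theorem Low.one : Low 0 (1 : Op k) := fun _ _ hv => hv

theorem Low.pow {T : Op k} (hT : Low 1 T) (n : ℕ) : Low n (T ^ n) := by
  induction n with
  | zero => simpa using Low.one
  | succ n ih => rw [pow_succ]; exact ih.mul hT

theorem low_xo : Low 1 (xo : Op k) := by
  intro m v hv
  refine F_map (fun w hw => ?_) hv
  match w, hw with
  | [], _ => simp
  | false :: t, hw => rw [xo_false]; exact single_mem_F (by simp at hw; omega) _
  | true :: t, _ => simp

theorem low_yo : Low 1 (yo : Op k) := by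
  intro m v hv
  refine F_map (fun w hw => ?_) hv
  match w, hw with
  | [], _ => simp
  | true :: t, hw => rw [yo_true]; exact single_mem_F (by simp at hw; omega) _
  | false :: t, _ => simp

theorem lo_mem (b : Bool) {n : ℕ} {v : M k} (hv : v ∈ F n) : lo b v ∈ F (n + 1) :=
  F_map (fun w hw => by rw [lo_single]; exact single_mem_F (by simpa using hw) _) hv

/-- locally finite geometric series -/
def geo (T : Op k) : Op k :=
  ext (fun w => ∑ i ∈ Finset.range (w.length + 1), (T ^ i) (Finsupp.single w 1))

theorem geo_apply {T : Op k} (hT : Low 1 T) {n : ℕ} {v : M k} (hv : v ∈ F n) :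
    geo T v = ∑ i ∈ Finset.range n, (T ^ i) v := by
  have key : geo T v = (∑ i ∈ Finset.range n, T ^ i : Op k) v := by
    refine F_ext (fun w hw => ?_) hv
    rw [geo, ext_single, one_smul, LinearMap.sum_apply]
    refine Finset.sum_subset (Finset.range_mono hw) ?_
    intro i _ hi
    simp only [Finset.mem_range, not_lt] at hi
    have := (hT.pow i) (w.length + 1) _ (single_mem_F (Nat.lt_succ_self _) (1 : k[X]))
    rw [Nat.sub_eq_zero_of_le hi, F_zero] at this
    exact this
  rw [key, LinearMap.sum_apply]

theorem one_sub_mul_geo {T : Op k} (hT : Low 1 T) : (1 - T) * geo T = 1 := by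
  refine LinearMap.ext fun v => ?_
  obtain ⟨n, hn⟩ := mem_some_F v
  have h0 : (T ^ n) v = 0 := by
    have := (hT.pow n) n v hn
    rw [Nat.sub_self, F_zero] at this
    exact this
  have e := LinearMap.congr_fun (mul_neg_geom_sum T n) v
  rw [Module.End.mul_apply, LinearMap.sum_apply, LinearMap.sub_apply _ _ v, h0, sub_zero] at e
  rw [Module.End.mul_apply, geo_apply hT hn, e]

theorem geo_mul_one_sub {T : Op k} (hT : Low 1 T) : geo T * (1 - T) = 1 := by
  refine LinearMap.ext fun v => ?_
  obtain ⟨n, hn⟩ := mem_some_F v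
  have h0 : (T ^ n) v = 0 := by
    have := (hT.pow n) n v hn
    rw [Nat.sub_self, F_zero] at this
    exact this
  have hn' : (1 - T) v ∈ F n := by
    rw [LinearMap.sub_apply]
    exact Submodule.sub_mem _ hn (hT.mono (Nat.zero_le 1) n v hn)
  have e := LinearMap.congr_fun (geom_sum_mul_neg T n) v
  rw [Module.End.mul_apply, LinearMap.sum_apply, LinearMap.sub_apply 1 (T ^ n) v, h0,
    sub_zero] at e
  rw [Module.End.mul_apply, geo_apply hT hn', e]

/-! ### The recursion -/

/-- The representation determined by an operator `E`. -/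
def rep (E : Op k) : FreeAlgebra k (Fin 3) →ₐ[k] Op k :=
  FreeAlgebra.lift k ![xo, yo, E * yo]

theorem rep_low {E : Op k} (hE : Low 0 E) (s : FreeAlgebra k (Fin 3)) : Low 0 (rep E s) := by
  induction s using FreeAlgebra.induction with
  | grade0 c =>
    intro m v hv
    rw [AlgHom.commutes]
    change c • v ∈ F m
    rw [← algebraMap_smul k[X] c v]
    exact Submodule.smul_mem _ _ hv
  | grade1 i =>
    rw [rep, FreeAlgebra.lift_ι_apply]
    fin_cases i
    · exact low_xo.mono (Nat.zero_le 1)
    · exact low_yo.mono (Nat.zero_le 1)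
    · exact (hE.mul low_yo).mono (Nat.zero_le _)
  | mul a b ha hb => rw [map_mul]; exact ha.mul hb
  | add a b ha hb => rw [map_add]; exact ha.add hb

theorem rep_congr {E E' : Op k} (hE' : Low 0 E') {n : ℕ}
    (h : ∀ v : M k, v ∈ F n → E v = E' v) (s : FreeAlgebra k (Fin 3)) :
    ∀ v : M k, v ∈ F (n + 1) → rep E s v = rep E' s v := by
  induction s using FreeAlgebra.induction with
  | grade0 c => intro v _; rw [AlgHom.commutes, AlgHom.commutes]
  | grade1 i =>
    intro v hv
    rw [rep, rep, FreeAlgebra.lift_ι_apply, FreeAlgebra.lift_ι_apply]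
    fin_cases i
    · rfl
    · rfl
    · exact h _ (low_yo _ _ hv)
  | mul a b ha hb =>
    intro v hv
    rw [map_mul, map_mul, Module.End.mul_apply, Module.End.mul_apply, hb v hv]
    exact ha _ (rep_low hE' b _ _ hv)
  | add a b ha hb =>
    intro v hv
    rw [map_add, map_add, LinearMap.add_apply, LinearMap.add_apply, ha v hv, hb v hv]

variable (r : ℕ → FreeAlgebra k (Fin 3))

/-- `r_j y` -/
def A (E : Op k) (j : ℕ) : Op k := rep E (r j) * yo

theorem low_A {E : Op k} (hE : Low 0 E) (j : ℕ) : Low 1 (A r E j) :=
  (rep_low hE _).mul low_yo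

def G (E : Op k) (j : ℕ) : Op k := A r E j ^ (j + 2) * (geo (A r E j) * rep E (r j))

theorem geo_low {T : Op k} (hT : Low 1 T) : Low 0 (geo T) := by
  intro m v hv
  rw [geo_apply hT hv]
  exact Submodule.sum_mem _ fun i _ => (hT.pow i).mono (Nat.zero_le i) m v hv

theorem low_G {E : Op k} (hE : Low 0 E) (j : ℕ) : Low (j + 2) (G r E j) := by
  have h : Low (j + 2 + (0 + 0)) (G r E j) :=
    ((low_A r hE j).pow (j + 2)).mul ((geo_low (low_A r hE j)).mul (rep_low hE (r j)))
  rwa [add_zero, add_zero] at h

theorem A_congr {E E' : Op k} (hE' : Low 0 E') {n : ℕ}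
    (h : ∀ v : M k, v ∈ F n → E v = E' v) (j : ℕ) :
    ∀ v : M k, v ∈ F (n + 1) → A r E j v = A r E' j v := by
  intro v hv
  exact rep_congr hE' h _ _ ((low_yo.mono (Nat.zero_le 1)) _ _ hv)

theorem pow_congr {T T' : Op k} (hT' : Low 0 T') {n : ℕ}
    (h : ∀ v : M k, v ∈ F n → T v = T' v) (i : ℕ) :
    ∀ v : M k, v ∈ F n → (T ^ i) v = (T' ^ i) v := by
  induction i with
  | zero => intro v _; rfl
  | succ i ih =>
    intro v hv
    rw [pow_succ, pow_succ, Module.End.mul_apply, Module.End.mul_apply, h v hv]
    exact ih _ (hT' _ _ hv)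

theorem G_congr {E E' : Op k} (hE : Low 0 E) (hE' : Low 0 E') {n : ℕ}
    (h : ∀ v : M k, v ∈ F n → E v = E' v) (j : ℕ) :
    ∀ v : M k, v ∈ F (n + 1) → G r E j v = G r E' j v := by
  intro v hv
  have hA := A_congr r hE' h j
  have hA' : Low 0 (A r E' j) := (low_A r hE' j).mono (Nat.zero_le 1)
  rw [G, G, Module.End.mul_apply, Module.End.mul_apply, Module.End.mul_apply,
    Module.End.mul_apply, rep_congr hE' h _ v hv]
  have h1 : rep E' (r j) v ∈ F (n + 1) := rep_low hE' _ _ _ hv
  rw [geo_apply (low_A r hE j) h1, geo_apply (low_A r hE' j) h1]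
  have h2 : ∑ i ∈ Finset.range (n + 1), (A r E j ^ i) (rep E' (r j) v)
      = ∑ i ∈ Finset.range (n + 1), (A r E' j ^ i) (rep E' (r j) v) :=
    Finset.sum_congr rfl fun i _ => pow_congr hA' hA i _ h1
  rw [h2]
  refine pow_congr hA' hA _ _ ?_
  exact Submodule.sum_mem _ fun i _ => ((low_A r hE' j).pow i).mono (Nat.zero_le i) _ _ h1

/-- The correction term. -/
def Q (E : Op k) (w : List Bool) : M k :=
  ∑ j ∈ Finset.range w.length, (lo false ^ j * lo true : Op k) (G r E j (Finsupp.single w 1))

/-- The term which commutes with the recursion. -/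
def esh (e : List Bool → M k) : List Bool → M k
  | [] => Finsupp.single [] X
  | false :: w => lo false (esh e w)
  | true :: w => lo true (e w)

/-- The solution of the recursion. -/
def e (w : List Bool) : M k :=
  WellFounded.fix (measure (List.length (α := Bool))).wf
    (fun w (ih : ∀ w' : List Bool, w'.length < w.length → M k) =>
      esh (fun w' => if h : w'.length < w.length then ih w' h else 0) w
        + Q r (ext (fun w' => if h : w'.length < w.length then ih w' h else 0)) w) w

/-- truncation -/
def cut (f : List Bool → M k) (n : ℕ) (w : List Bool) : M k := if w.length < n then f w else 0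

theorem e_eq (w : List Bool) :
    e r w = esh (cut (e r) w.length) w + Q r (ext (cut (e r) w.length)) w := by
  rw [e, WellFounded.fix_eq]
  simp only [dite_eq_ite]
  rfl

theorem esh_congr {f g : List Bool → M k} {w : List Bool}
    (h : ∀ w' : List Bool, w'.length < w.length → f w' = g w') : esh f w = esh g w := by
  induction w with
  | nil => rfl
  | cons b t ih =>
    cases b with
    | false =>
      rw [esh, esh, ih (fun w' hw' => h w' (lt_trans hw' (by simp)))]
    | true => rw [esh, esh, h t (by simp)]

theorem pow_lo_mem (j : ℕ) {n : ℕ} {v : M k} (hv : v ∈ F n) :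
    (lo false ^ j : Op k) v ∈ F (n + j) := by
  induction j generalizing n v with
  | zero => exact hv
  | succ j ih =>
    rw [pow_succ, Module.End.mul_apply]
    have := ih (lo_mem false hv)
    rwa [add_assoc, add_comm 1 j] at this

theorem Q_mem {E : Op k} (hE : Low 0 E) (w : List Bool) : Q r E w ∈ F w.length := by
  refine Submodule.sum_mem _ fun j hj => ?_
  rw [Finset.mem_range] at hj
  rw [Module.End.mul_apply]
  have h1 := low_G r hE j (w.length + 1) _ (single_mem_F (Nat.lt_succ_self _) (1 : k[X]))
  have h2 := pow_lo_mem j (lo_mem true h1)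
  refine F_mono ?_ h2
  omega

theorem low_ext {f : List Bool → M k} (hf : ∀ w, f w ∈ F (w.length + 1)) : Low 0 (ext f) := by
  intro m v hv
  refine F_map (fun w hw => ?_) hv
  rw [ext_single, one_smul]
  exact F_mono (by simpa using hw) (hf w)

theorem esh_mem {f : List Bool → M k} (w : List Bool)
    (hf : ∀ w' : List Bool, w'.length < w.length → f w' ∈ F (w'.length + 1)) :
    esh f w ∈ F (w.length + 1) := by
  induction w with
  | nil => exact single_mem_F (by simp) _
  | cons b t ih =>
    cases b with
    | false =>
      rw [esh]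
      exact lo_mem false (ih fun w' hw' => hf w' (lt_trans hw' (by simp)))
    | true => rw [esh]; exact lo_mem true (hf t (by simp))

theorem e_mem (w : List Bool) : e r w ∈ F (w.length + 1) := by
  induction hn : w.length using Nat.strong_induction_on generalizing w with
  | _ n ih =>
    subst hn
    rw [e_eq]
    have hcut : ∀ w', cut (e r) w.length w' ∈ F (w'.length + 1) := by
      intro w'
      rw [cut]
      split_ifs with h
      · exact ih _ h w' rfl
      · exact Submodule.zero_mem _
    refine Submodule.add_mem _ (esh_mem w fun w' _ => hcut w') ?_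
    exact F_mono (Nat.le_succ _) (Q_mem r (low_ext hcut) w)

/-- The operator `E`. -/
def E : Op k := ext (e r)

theorem low_E : Low 0 (E r) := low_ext (e_mem r)

theorem e_eq' (w : List Bool) : e r w = esh (e r) w + Q r (E r) w := by
  have hcut : ∀ w', cut (e r) w.length w' ∈ F (w'.length + 1) := by
    intro w'
    rw [cut]
    split_ifs with h
    · exact e_mem r w'
    · exact Submodule.zero_mem _
  have hagree : ∀ v : M k, v ∈ F w.length → ext (cut (e r) w.length) v = E r v := by
    intro v hv
    refine F_ext (fun w' hw' => ?_) hv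
    rw [E, ext_single, ext_single, cut, if_pos hw']
  have h1 : esh (cut (e r) w.length) w = esh (e r) w :=
    esh_congr fun w' hw' => by rw [cut, if_pos hw']
  have h2 : Q r (ext (cut (e r) w.length)) w = Q r (E r) w := by
    refine Finset.sum_congr rfl fun j _ => ?_
    rw [G_congr r (low_ext hcut) (low_E r) hagree j _ (single_mem_F (Nat.lt_succ_self _) _)]
  rw [← h1, ← h2]
  exact e_eq r w

/-! ### The relations -/

/-- removal of the initial segment `false^j true` -/
def D (j : ℕ) : Op k := yo * xo ^ j

theorem D_zero_true (t : List Bool) (c : k[X]) :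
    D 0 (Finsupp.single (true :: t) c : M k) = Finsupp.single t c := by simp [D]

theorem D_zero_false (t : List Bool) (c : k[X]) :
    D 0 (Finsupp.single (false :: t) c : M k) = 0 := by simp [D]

theorem D_nil (j : ℕ) (c : k[X]) : D j (Finsupp.single [] c : M k) = 0 := by
  cases j with
  | zero => simp [D]
  | succ j => simp [D, pow_succ]

theorem D_succ (j : ℕ) : (D (j + 1) : Op k) = D j * xo := by
  rw [D, D, pow_succ, mul_assoc]

theorem D_lo (j i : ℕ) : (D j * (lo false ^ i * lo true) : Op k) = if i = j then 1 else 0 := by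
  induction j generalizing i with
  | zero =>
    cases i with
    | zero => simp [D, yo_lo_true]
    | succ i =>
      rw [if_neg (Nat.succ_ne_zero i), D, pow_zero, mul_one, pow_succ', mul_assoc, ← mul_assoc yo,
        yo_lo_false, zero_mul]
  | succ j ih =>
    cases i with
    | zero =>
      rw [if_neg (Nat.succ_ne_zero j).symm, D_succ, pow_zero, one_mul, mul_assoc, xo_lo_true,
        mul_zero]
    | succ i =>
      rw [D_succ, pow_succ', mul_assoc, mul_assoc (lo false), ← mul_assoc xo, xo_lo_false, one_mul,
        ih]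
      simp

theorem D_esh (j : ℕ) (w : List Bool) :
    D j (esh (e r) w) = E r (D j (Finsupp.single w 1)) := by
  induction w generalizing j with
  | nil => rw [esh, D_nil, D_nil, map_zero]
  | cons b t ih =>
    cases b with
    | false =>
      cases j with
      | zero =>
        rw [esh, D_zero_false, map_zero, D, pow_zero, mul_one, ← Module.End.mul_apply, yo_lo_false]
        rfl
      | succ j =>
        rw [esh, D_succ, Module.End.mul_apply, Module.End.mul_apply, xo_false,
          ← Module.End.mul_apply xo, xo_lo_false, Module.End.one_apply, ih]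
    | true =>
      cases j with
      | zero =>
        rw [esh, D_zero_true, D, pow_zero, mul_one, ← Module.End.mul_apply, yo_lo_true, E,
          ext_single, one_smul, Module.End.one_apply]
      | succ j =>
        rw [esh, D_succ, Module.End.mul_apply, Module.End.mul_apply, xo_true, map_zero, map_zero,
          ← Module.End.mul_apply xo, xo_lo_true, LinearMap.zero_apply, map_zero]

theorem D_Q (j : ℕ) (w : List Bool) :
    D j (Q r (E r) w) = G r (E r) j (Finsupp.single w 1) := by
  rw [Q, map_sum]
  have h1 : ∀ i ∈ Finset.range w.length,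
      D j ((lo false ^ i * lo true : Op k) (G r (E r) i (Finsupp.single w 1)))
        = if i = j then G r (E r) i (Finsupp.single w 1) else 0 := by
    intro i _
    rw [← Module.End.mul_apply, D_lo]
    split_ifs with h
    · rfl
    · rfl
  rw [Finset.sum_congr rfl h1, Finset.sum_ite_eq']
  split_ifs with h
  · rfl
  · simp only [Finset.mem_range, not_lt] at h
    have := low_G r (low_E r) j (w.length + 1) _ (single_mem_F (Nat.lt_succ_self _) (1 : k[X]))
    rw [Nat.sub_eq_zero_of_le (by omega), F_zero] at this
    exact this.symm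

theorem D_E (j : ℕ) : D j * E r = E r * D j + G r (E r) j := by
  refine op_ext fun w => ?_
  rw [Module.End.mul_apply, LinearMap.add_apply, Module.End.mul_apply]
  conv_lhs => rw [E, ext_single, one_smul]
  rw [e_eq', map_add, D_esh, D_Q]

/-- The representation. -/
def ρ : FreeAlgebra k (Fin 3) →ₐ[k] Op k := rep (E r)

/-- generators of the free algebra -/
def gx : FreeAlgebra k (Fin 3) := FreeAlgebra.ι k 0
def gy : FreeAlgebra k (Fin 3) := FreeAlgebra.ι k 1
def gz : FreeAlgebra k (Fin 3) := FreeAlgebra.ι k 2

theorem ρ_x : ρ r gx = xo := by simp [ρ, rep, gx, FreeAlgebra.lift_ι_apply]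
theorem ρ_y : ρ r gy = yo := by simp [ρ, rep, gy, FreeAlgebra.lift_ι_apply]
theorem ρ_z : ρ r gz = E r * yo := by simp [ρ, rep, gz, FreeAlgebra.lift_ι_apply]

/-- the relator -/
def rel (j : ℕ) : FreeAlgebra k (Fin 3) := gy * gx ^ j * gz - gz * gx ^ j * gy

theorem ρ_rel (j : ℕ) : ρ r (rel j) = G r (E r) j * yo := by
  have h := congrArg (· * (yo : Op k)) (D_E r j)
  simp only [D] at h
  rw [rel, map_sub, map_mul, map_mul, map_mul, map_mul, map_pow, ρ_x, ρ_y, ρ_z, sub_eq_iff_eq_add]
  rw [add_mul] at h
  rw [← mul_assoc, h, add_comm]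
  simp only [mul_assoc]

theorem ρ_A (j : ℕ) : ρ r (r j * gy) = A r (E r) j := by
  rw [map_mul, ρ_y]; rfl

/-- `G_j y = A^{j+2} (1-A)^{-1} A` -/
theorem G_y (j : ℕ) :
    G r (E r) j * yo = A r (E r) j ^ (j + 2) * geo (A r (E r) j) * A r (E r) j := by
  rw [G, mul_assoc, mul_assoc, mul_assoc]; rfl

/-- identity in a ring: if `g` is a left inverse of `1 - T`, then
`(1 + ⋯ + T^n) + T^n g T` is too. -/
theorem ring_aux {R : Type*} [Ring R] {T g : R} (h2 : g * (1 - T) = 1) (n : ℕ) :
    (∑ i ∈ Finset.range (n + 1), T ^ i + T ^ n * g * T) * (1 - T) = 1 := by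
  have h1 : T * (1 - T) = (1 - T) * T := by
    rw [sub_mul, mul_sub, one_mul, mul_one]
  rw [add_mul, geom_sum_mul_neg, mul_assoc, h1, mul_assoc, ← mul_assoc g, h2, one_mul, ← pow_succ,
    sub_add_cancel]

theorem ring_aux' {R : Type*} [Ring R] {T g : R} (h1 : (1 - T) * g = 1) (n : ℕ) :
    T ^ n * g * T = T ^ (n + 1) + T * (T ^ n * g * T) := by
  have h2 : g = 1 + T * g := by
    rw [sub_mul, one_mul] at h1
    rw [← h1, sub_add_cancel]
  calc T ^ n * g * T = T ^ n * (1 + T * g) * T := by rw [← h2]
    _ = T ^ (n + 1) + T * (T ^ n * g * T) := by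
      rw [mul_add, add_mul, mul_one, ← pow_succ, ← mul_assoc (T ^ n) T g, ← pow_succ, pow_succ' T n]
      simp only [mul_assoc]

/-- The inverse of `1 - r_j y` is the image of a polynomial. -/
theorem exists_inv (j : ℕ) :
    ρ r (∑ i ∈ Finset.range (j + 3), (r j * gy) ^ i + rel j) * (1 - ρ r (r j * gy)) = 1 := by
  have hT := low_A r (low_E r) j
  have h1 : ∑ i ∈ Finset.range (j + 3), (ρ r) ((r j * gy) ^ i)
      = ∑ i ∈ Finset.range (j + 3), A r (E r) j ^ i :=
    Finset.sum_congr rfl fun i _ => by rw [map_pow, ρ_A]
  rw [map_add, map_sum, ρ_rel, ρ_A, h1, G_y]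
  exact ring_aux (R := Op k) (T := A r (E r) j) (g := geo (A r (E r) j)) (geo_mul_one_sub hT) (j + 2)

theorem ρ_rel' (j : ℕ) :
    ρ r (rel j) = ρ r ((r j * gy) ^ (j + 3) + (r j * gy) * rel j) := by
  have hT := low_A r (low_E r) j
  rw [map_add, map_mul _ _ (rel j), map_pow, ρ_A, ρ_rel, G_y]
  exact ring_aux' (R := Op k) (T := A r (E r) j) (g := geo (A r (E r) j)) (one_sub_mul_geo hT) (j + 2)

/-! ### Monomials and the filtration of the free algebra -/

/-- monomial of a word -/
def mon (l : List (Fin 3)) : FreeAlgebra k (Fin 3) := (l.map (FreeAlgebra.ι k)).prod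

theorem mon_cons (a : Fin 3) (l : List (Fin 3)) :
    (mon (a :: l) : FreeAlgebra k (Fin 3)) = FreeAlgebra.ι k a * mon l := by
  simp [mon]

theorem mon_append (a l : List (Fin 3)) :
    (mon (a ++ l) : FreeAlgebra k (Fin 3)) = mon a * mon l := by
  simp [mon]

theorem mon_nil : (mon [] : FreeAlgebra k (Fin 3)) = 1 := by simp [mon]

/-- span of monomials of length at least `n` -/
def P (n : ℕ) : Submodule k (FreeAlgebra k (Fin 3)) :=
  Submodule.span k (mon '' {l : List (Fin 3) | n ≤ l.length})

theorem mon_mem_P {n : ℕ} {l : List (Fin 3)} (h : n ≤ l.length) :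
    (mon l : FreeAlgebra k (Fin 3)) ∈ P n := Submodule.subset_span ⟨l, h, rfl⟩

theorem P_mono {m n : ℕ} (h : m ≤ n) : (P n : Submodule k (FreeAlgebra k (Fin 3))) ≤ P m :=
  Submodule.span_mono (Set.image_mono fun _ hl => le_trans h hl)

theorem P_mul {m n : ℕ} {s t : FreeAlgebra k (Fin 3)} (hs : s ∈ P m) (ht : t ∈ P n) :
    s * t ∈ P (m + n) := by
  have h : (P m : Submodule k (FreeAlgebra k (Fin 3))) * P n ≤ P (m + n) := by
    rw [P, P, Submodule.span_mul_span, Submodule.span_le]
    rintro _ ⟨_, ⟨a, ha, rfl⟩, _, ⟨b, hb, rfl⟩, rfl⟩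
    simp only [← mon_append]
    refine mon_mem_P ?_
    rw [List.length_append]
    exact add_le_add ha hb
  exact h (Submodule.mul_mem_mul hs ht)

theorem mem_P_zero (s : FreeAlgebra k (Fin 3)) : s ∈ P 0 := by
  induction s using FreeAlgebra.induction with
  | grade0 c =>
    rw [Algebra.algebraMap_eq_smul_one, ← mon_nil]
    exact Submodule.smul_mem _ _ (mon_mem_P (Nat.zero_le _))
  | grade1 i =>
    have : FreeAlgebra.ι k i = mon [i] := by simp [mon]
    rw [this]
    exact mon_mem_P (Nat.zero_le _)
  | mul a b ha hb => simpa using P_mul ha hb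
  | add a b ha hb => exact Submodule.add_mem _ ha hb

theorem P_pow {s : FreeAlgebra k (Fin 3)} (hs : s ∈ P 1) (n : ℕ) : s ^ n ∈ P n := by
  induction n with
  | zero => exact mem_P_zero _
  | succ n ih => rw [pow_succ]; exact P_mul ih hs

/-- elements of the free algebra whose image is the image of an element of `P n` -/
def N (n : ℕ) : Submodule k (FreeAlgebra k (Fin 3)) :=
  ((P n).map (ρ r).toLinearMap).comap (ρ r).toLinearMap

theorem mem_N {n : ℕ} {s : FreeAlgebra k (Fin 3)} :
    s ∈ N r n ↔ ∃ t ∈ P n, ρ r t = ρ r s := by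
  rw [N, Submodule.mem_comap, Submodule.mem_map]
  rfl

theorem P_le_N (n : ℕ) : P n ≤ N r n := fun s hs => (mem_N r).2 ⟨s, hs, rfl⟩

theorem N_mono {m n : ℕ} (h : m ≤ n) : N r n ≤ N r m := by
  intro s hs
  rw [mem_N] at hs ⊢
  obtain ⟨t, ht, e⟩ := hs
  exact ⟨t, P_mono h ht, e⟩

theorem N_mul {m n : ℕ} {s t : FreeAlgebra k (Fin 3)} (hs : s ∈ N r m) (ht : t ∈ N r n) :
    s * t ∈ N r (m + n) := by
  rw [mem_N] at hs ht ⊢
  obtain ⟨s', hs', es⟩ := hs
  obtain ⟨t', ht', et⟩ := ht
  exact ⟨s' * t', P_mul hs' ht', by rw [map_mul, map_mul, es, et]⟩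

theorem gx_pow (j : ℕ) : (gx ^ j : FreeAlgebra k (Fin 3)) = mon (List.replicate j 0) := by
  induction j with
  | zero => simp [mon]
  | succ j ih => rw [pow_succ', ih, List.replicate_succ, mon_cons]; rfl

theorem rel_mem_P (j : ℕ) : (rel j : FreeAlgebra k (Fin 3)) ∈ P (j + 2) := by
  refine Submodule.sub_mem _ ?_ ?_
  · have : (gy * gx ^ j * gz : FreeAlgebra k (Fin 3)) = mon (1 :: (List.replicate j 0 ++ [2])) := by
      rw [mon_cons, mon_append, gx_pow, mul_assoc, mon_cons, mon_nil, mul_one]; rfl
    rw [this]
    exact mon_mem_P (by simp)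
  · have : (gz * gx ^ j * gy : FreeAlgebra k (Fin 3)) = mon (2 :: (List.replicate j 0 ++ [1])) := by
      rw [mon_cons, mon_append, gx_pow, mul_assoc, mon_cons, mon_nil, mul_one]; rfl
    rw [this]
    exact mon_mem_P (by simp)

theorem gy_mem_P : (gy : FreeAlgebra k (Fin 3)) ∈ P 1 := by
  have : (gy : FreeAlgebra k (Fin 3)) = mon [1] := by simp [mon, gy]
  rw [this]
  exact mon_mem_P (by simp)

theorem rel_mem_N (j : ℕ) : rel j ∈ N r (j + 3) := by
  rw [mem_N]
  refine ⟨(r j * gy) ^ (j + 3) + (r j * gy) * rel j, ?_, (ρ_rel' r j).symm⟩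
  have h1 : r j * gy ∈ P 1 := by
    have := P_mul (mem_P_zero (r j)) gy_mem_P
    simpa using this
  refine Submodule.add_mem _ (P_pow h1 _) ?_
  have := P_mul h1 (rel_mem_P (k := k) j)
  exact P_mono (by omega) this

/-- underlying two-letter word -/
def und (l : List (Fin 3)) : List Bool := l.map (fun c => decide (c ≠ 0))

/-- number of `z` -/
def cnt (l : List (Fin 3)) : ℕ := l.count 2

/-- normal form -/
def nf : List Bool → ℕ → List (Fin 3)
  | [], _ => []
  | false :: w, l => 0 :: nf w l
  | true :: w, 0 => 1 :: nf w 0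
  | true :: w, l + 1 => 2 :: nf w l

theorem nf_length (w : List Bool) (l : ℕ) : (nf w l).length = w.length := by
  induction w generalizing l with
  | nil => rfl
  | cons b t ih =>
    cases b with
    | false => simp [nf, ih]
    | true => cases l <;> simp [nf, ih]

theorem nf_step (w : List Bool) : ∀ (l j : ℕ), l + 1 ≤ w.count true →
    (mon (1 :: (List.replicate j 0 ++ nf w (l + 1))) - mon (2 :: (List.replicate j 0 ++ nf w l)) :
      FreeAlgebra k (Fin 3)) ∈ N r (w.length + j + 2) := by
  induction w with
  | nil => intro l j h; simp at h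
  | cons b t ih =>
    intro l j h
    cases b with
    | false =>
      have h' : l + 1 ≤ t.count true := by simpa using h
      have := ih l (j + 1) h'
      have e1 : ∀ m, List.replicate j (0 : Fin 3) ++ nf (false :: t) m
          = List.replicate (j + 1) 0 ++ nf t m := by
        intro m
        rw [nf, List.replicate_succ', List.append_assoc]; rfl
      rw [e1, e1]
      refine N_mono r ?_ this
      simp only [List.length_cons]; omega
    | true =>
      have h' : l ≤ t.count true := by simpa using h
      have e1 : (mon (1 :: (List.replicate j 0 ++ nf (true :: t) (l + 1))) :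
          FreeAlgebra k (Fin 3)) = rel j * mon (nf t l) + gz * gx ^ j * (gy * mon (nf t l)) := by
        rw [nf, mon_cons, mon_append, mon_cons, ← gx_pow, rel, sub_mul]
        simp only [mul_assoc]
        rw [sub_add_cancel]; rfl
      cases l with
      | zero =>
        have e2 : (mon (2 :: (List.replicate j 0 ++ nf (true :: t) 0)) :
            FreeAlgebra k (Fin 3)) = gz * gx ^ j * (gy * mon (nf t 0)) := by
          rw [nf, mon_cons, mon_append, mon_cons, ← gx_pow, mul_assoc]; rfl
        rw [e1, e2, add_sub_cancel_right]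
        have := N_mul r (rel_mem_N r j) (P_le_N r _ (mon_mem_P (le_refl (nf t 0).length)))
        rw [nf_length] at this
        refine N_mono r ?_ this
        simp only [List.length_cons]; omega
      | succ l =>
        have e2 : (mon (2 :: (List.replicate j 0 ++ nf (true :: t) (l + 1))) :
            FreeAlgebra k (Fin 3)) = gz * gx ^ j * (gz * mon (nf t l)) := by
          rw [nf, mon_cons, mon_append, mon_cons, ← gx_pow, mul_assoc]; rfl
        rw [e1, e2, add_sub_assoc, ← mul_sub]
        refine Submodule.add_mem _ ?_ ?_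
        · have := N_mul r (rel_mem_N r j) (P_le_N r _ (mon_mem_P (le_refl (nf t (l+1)).length)))
          rw [nf_length] at this
          refine N_mono r ?_ this
          simp only [List.length_cons]; omega
        · have h0 := ih l 0 h'
          have e3 : (gz * gx ^ j : FreeAlgebra k (Fin 3)) = mon (2 :: List.replicate j 0) := by
            rw [mon_cons, gx_pow]; rfl
          have h1 : (gz * gx ^ j : FreeAlgebra k (Fin 3)) ∈ N r (j + 1) := by
            rw [e3]
            exact P_le_N r _ (mon_mem_P (by simp))
          have h2 := N_mul r h1 h0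
          simp only [List.replicate_zero, List.nil_append, mon_cons] at h2
          refine N_mono r ?_ h2
          simp only [List.length_cons]; omega

theorem und_count (l : List (Fin 3)) : cnt l ≤ (und l).count true := by
  induction l with
  | nil => simp [cnt]
  | cons a t ih =>
    fin_cases a <;> simp_all [cnt, und]
    omega

theorem mon_sub_nf (l : List (Fin 3)) :
    (mon l - mon (nf (und l) (cnt l)) : FreeAlgebra k (Fin 3)) ∈ N r (l.length + 1) := by
  induction l with
  | nil => simp [und, nf]
  | cons a t ih =>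
    have key : ∀ a : Fin 3, FreeAlgebra.ι k a * (mon t - mon (nf (und t) (cnt t)))
        ∈ N r ((a :: t).length + 1) := by
      intro a
      have h1 : FreeAlgebra.ι k a ∈ N r 1 := by
        have : FreeAlgebra.ι k a = mon [a] := by simp [mon]
        rw [this]
        exact P_le_N r _ (mon_mem_P (by simp))
      have := N_mul r h1 ih
      refine N_mono r ?_ this
      simp only [List.length_cons]; omega
    have hlen : (und t).length = t.length := by simp [und]
    fin_cases a
    · have e1 : nf (und ((0 : Fin 3) :: t)) (cnt ((0 : Fin 3) :: t)) = 0 :: nf (und t) (cnt t) := by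
        simp [und, cnt, nf]
      have := key 0
      rw [mul_sub, ← mon_cons, ← mon_cons] at this
      rw [← e1] at this
      exact this
    · have hk := key 1
      rw [mul_sub, ← mon_cons, ← mon_cons] at hk
      cases hc : cnt t with
      | zero =>
        have e1 : nf (und ((1 : Fin 3) :: t)) (cnt ((1 : Fin 3) :: t)) = 1 :: nf (und t) (cnt t) := by
          have : cnt ((1 : Fin 3) :: t) = cnt t := by simp [cnt]
          rw [this, hc]
          simp [und, nf]
        rw [← e1] at hk
        exact hk
      | succ l =>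
        have e1 : nf (und ((1 : Fin 3) :: t)) (cnt ((1 : Fin 3) :: t)) = 2 :: nf (und t) l := by
          have : cnt ((1 : Fin 3) :: t) = cnt t := by simp [cnt]
          rw [this, hc]
          simp [und, nf]
        have h3 := nf_step r (und t) l 0 (by rw [← hc]; exact und_count t)
        simp only [List.replicate_zero, List.nil_append] at h3
        rw [hc] at hk
        have h4 := Submodule.add_mem _ hk (N_mono r (by simp only [List.length_cons, hlen]; omega) h3)
        rw [sub_add_sub_cancel, ← e1] at h4
        exact h4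
    · have e1 : nf (und ((2 : Fin 3) :: t)) (cnt ((2 : Fin 3) :: t)) = 2 :: nf (und t) (cnt t) := by
        simp [und, cnt, nf]
      have := key 2
      rw [mul_sub, ← mon_cons, ← mon_cons] at this
      rw [← e1] at this
      exact this

/-! ### Leading terms -/

/-- coefficients with respect to normal forms -/
def tau : FreeAlgebra k (Fin 3) →ₗ[k] (List Bool × ℕ →₀ k) :=
  (Finsupp.lmapDomain k k (fun W : FreeMonoid (Fin 3) => (und W.toList, cnt W.toList))) ∘ₗ
    (MonoidAlgebra.coeffLinearEquiv k).toLinearMap ∘ₗ
    (FreeAlgebra.equivMonoidAlgebraFreeMonoid (R := k) (X := Fin 3)).toLinearMap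

theorem equiv_mon (l : List (Fin 3)) :
    FreeAlgebra.equivMonoidAlgebraFreeMonoid (mon l : FreeAlgebra k (Fin 3))
      = MonoidAlgebra.of k (FreeMonoid (Fin 3)) (FreeMonoid.ofList l) := by
  induction l with
  | nil => rw [mon_nil, map_one]; simp [FreeMonoid.ofList_nil, MonoidAlgebra.one_def]
  | cons a t ih =>
    rw [mon_cons, map_mul, ih, FreeMonoid.ofList_cons, map_mul]
    congr 1
    simp [FreeAlgebra.equivMonoidAlgebraFreeMonoid]

theorem tau_mon (l : List (Fin 3)) :
    tau (mon l : FreeAlgebra k (Fin 3)) = Finsupp.single (und l, cnt l) 1 := by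
  rw [tau]
  simp only [LinearMap.comp_apply, LinearEquiv.coe_coe, AlgEquiv.toLinearMap_apply, equiv_mon]
  simp [MonoidAlgebra.of_apply]

theorem ρ_mon_low (l : List (Fin 3)) : Low l.length (ρ r (mon l)) := by
  induction l with
  | nil => rw [mon_nil, map_one]; exact Low.one
  | cons a t ih =>
    rw [mon_cons, map_mul, List.length_cons, add_comm]
    refine Low.mul ?_ ih
    rw [ρ, rep, FreeAlgebra.lift_ι_apply]
    fin_cases a
    · exact low_xo
    · exact low_yo
    · have := (low_E r).mul low_yo
      rwa [zero_add] at this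

theorem ρ_P_low {n : ℕ} {s : FreeAlgebra k (Fin 3)} (hs : s ∈ P n) : Low n (ρ r s) := by
  induction hs using Submodule.span_induction with
  | mem x hx =>
    obtain ⟨l, hl, rfl⟩ := hx
    exact (ρ_mon_low r l).mono hl
  | zero =>
    intro m v _
    rw [map_zero]
    exact Submodule.zero_mem _
  | add x y _ _ hx hy => rw [map_add]; exact hx.add hy
  | smul a x _ hx =>
    intro m v hv
    rw [map_smul]
    change a • (ρ r x v) ∈ _
    rw [← algebraMap_smul k[X] a]
    exact Submodule.smul_mem _ _ (hx m v hv)

theorem E_sub_mem {n : ℕ} {v : M k} (hv : v ∈ F (n + 1)) :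
    E r v - (X : k[X]) • v ∈ F n := by
  have h : ∀ w : List Bool, e r w - Finsupp.single w X ∈ F w.length := by
    have h2 : ∀ w : List Bool, esh (e r) w - Finsupp.single w X ∈ F w.length := by
      intro w
      induction w with
      | nil => simp [esh]
      | cons b t ih =>
        cases b with
        | false =>
          have := lo_mem false ih
          rw [map_sub, lo_single] at this
          exact this
        | true =>
          have h3 : e r t - Finsupp.single t X ∈ F t.length := by
            rw [e_eq', add_sub_right_comm]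
            exact Submodule.add_mem _ ih (Q_mem r (low_E r) t)
          have := lo_mem true h3
          rw [map_sub, lo_single] at this
          exact this
    intro w
    rw [e_eq', add_sub_right_comm]
    exact Submodule.add_mem _ (h2 w) (Q_mem r (low_E r) w)
  have := F_map (T := E r - (X : k[X]) • 1) (N := F n) (n := n + 1) (fun w hw => ?_) hv
  · exact this
  · have h5 := F_mono (Nat.le_of_lt_succ hw) (h w)
    have h6 : (E r - (X : k[X]) • 1 : Op k) (Finsupp.single w 1) = e r w - Finsupp.single w X := by
      rw [LinearMap.sub_apply, E, ext_single, one_smul]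
      simp
    rw [h6]
    exact h5

/-- scalar attached to a letter acting on a letter -/
def lc (c : Fin 3) (b : Bool) : k[X] :=
  if decide (c ≠ 0) = b then (if c = 2 then X else 1) else 0

theorem letter_lead (c : Fin 3) (b : Bool) (w : List Bool) :
    ρ r (FreeAlgebra.ι k c) (Finsupp.single (b :: w) 1) - (lc c b : k[X]) • Finsupp.single w 1
      ∈ F w.length := by
  rw [ρ, rep, FreeAlgebra.lift_ι_apply]
  have h0 : (0 : M k) ∈ F w.length := Submodule.zero_mem _
  fin_cases c <;> cases b
  · simp [lc]
  · simp [lc]
  · simp [lc]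
  · simp [lc]
  · simp [lc]
  · have := E_sub_mem r (single_mem_F (Nat.lt_succ_self w.length) (1 : k[X]))
    simpa [lc] using this

/-- leading coefficient of a monomial -/
def lcoef (W : List (Fin 3)) (u : List Bool) : k[X] := if und W = u then X ^ cnt W else 0

theorem lcoef_cons (c : Fin 3) (W : List (Fin 3)) (b : Bool) (u : List Bool) :
    (lcoef (c :: W) (b :: u) : k[X]) = lcoef W u * lc c b := by
  unfold lcoef lc
  have h1 : und (c :: W) = decide (c ≠ 0) :: und W := rfl
  rw [h1]
  have h2 : cnt (c :: W) = cnt W + (if c = 2 then 1 else 0) := by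
    simp only [cnt, List.count_cons, beq_iff_eq]
  rw [h2]
  by_cases h3 : und W = u
  · by_cases h4 : decide (c ≠ 0) = b
    · rw [if_pos (by rw [h3, h4]), if_pos h3, if_pos h4, pow_add]
      split_ifs <;> simp
    · rw [if_neg (fun h5 => h4 (List.cons.inj h5).1), if_neg h4, mul_zero]
  · rw [if_neg (fun h5 => h3 (List.cons.inj h5).2), if_neg h3, zero_mul]

theorem mon_lead (W : List (Fin 3)) : ∀ (u w : List Bool), W.length = u.length →
    ρ r (mon W) (Finsupp.single (u.reverse ++ w) 1) - (lcoef W u : k[X]) • Finsupp.single w 1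
      ∈ F w.length := by
  induction W with
  | nil =>
    intro u w h
    have hu : u = [] := List.length_eq_zero_iff.1 h.symm
    subst hu
    rw [mon_nil, map_one]
    simp [lcoef, und, cnt]
  | cons c W ih =>
    intro u w h
    cases u with
    | nil => simp at h
    | cons b u =>
      have h' : W.length = u.length := by simpa using h
      have h1 := ih u (b :: w) h'
      have h2 : (b :: u).reverse ++ w = u.reverse ++ (b :: w) := by simp
      rw [h2, mon_cons, map_mul, Module.End.mul_apply]
      have hlow : Low 1 (ρ r (FreeAlgebra.ι k c)) := by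
        have := ρ_mon_low r [c]
        simpa [mon] using this
      have h3 := hlow _ _ h1
      have h4 := Submodule.smul_mem _ (lcoef W u : k[X]) (letter_lead r c b w)
      rw [map_sub, map_smul] at h3
      rw [smul_sub, smul_smul, ← lcoef_cons] at h4
      have h5 := Submodule.add_mem _ h3 h4
      rw [sub_add_sub_cancel] at h5
      exact h5

/-- coefficient of the empty word in the value on a word -/
def val (s : FreeAlgebra k (Fin 3)) (u : List Bool) : k[X] :=
  (ρ r s (Finsupp.single u.reverse 1)) []

theorem F_zero_iff {v : M k} : v ∈ F 0 ↔ v = 0 := by rw [F_zero]; rfl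

theorem val_mon (W : List (Fin 3)) (u : List Bool) (h : u.length ≤ W.length) :
    val r (mon W) u = lcoef W u := by
  rcases h.lt_or_eq with h | h
  · have h1 := ρ_mon_low r W (u.length + 1) (Finsupp.single u.reverse 1)
      (single_mem_F (by simp) _)
    rw [Nat.sub_eq_zero_of_le h, F_zero_iff] at h1
    rw [val, h1, lcoef, if_neg]
    · rfl
    · intro h2
      rw [← h2] at h
      simp [und] at h
  · have h1 := mon_lead r W u [] h.symm
    simp only [List.append_nil, List.length_nil] at h1
    rw [F_zero_iff, sub_eq_zero] at h1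
    rw [val, h1]
    simp

theorem val_coeff {n : ℕ} {s : FreeAlgebra k (Fin 3)} (hs : s ∈ P n) (u : List Bool)
    (hu : u.length = n) (l : ℕ) : (val r s u).coeff l = tau s (u, l) := by
  induction hs using Submodule.span_induction with
  | mem x hx =>
    obtain ⟨W, hW, rfl⟩ := hx
    rw [val_mon r W u (by rw [hu]; exact hW), tau_mon, lcoef, Finsupp.single_apply]
    by_cases h : und W = u
    · rw [if_pos h, Polynomial.coeff_X_pow]
      by_cases h2 : l = cnt W
      · rw [if_pos h2, if_pos (by rw [h, h2])]
      · rw [if_neg h2, if_neg]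
        intro h3
        exact h2 (Prod.ext_iff.1 h3).2.symm
    · rw [if_neg h, if_neg (fun h3 => h (Prod.ext_iff.1 h3).1)]
      simp
  | zero => simp [val]
  | add x y _ _ hx hy =>
    rw [map_add, Finsupp.add_apply, ← hx, ← hy, val, val, val, map_add, LinearMap.add_apply,
      Finsupp.add_apply, Polynomial.coeff_add]
  | smul a x _ hx =>
    rw [map_smul, Finsupp.smul_apply, ← hx, val, val, map_smul]
    simp

/-- normal form map -/
def sig : (List Bool × ℕ →₀ k) →ₗ[k] FreeAlgebra k (Fin 3) :=
  Finsupp.linearCombination k (fun q : List Bool × ℕ => (mon (nf q.1 q.2) : FreeAlgebra k (Fin 3)))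

theorem sub_sig_mem {n : ℕ} {s : FreeAlgebra k (Fin 3)} (hs : s ∈ P n) :
    s - sig (tau s) ∈ N r (n + 1) := by
  induction hs using Submodule.span_induction with
  | mem x hx =>
    obtain ⟨W, hW, rfl⟩ := hx
    rw [tau_mon, sig, Finsupp.linearCombination_single, one_smul]
    exact N_mono r (Nat.succ_le_succ hW) (mon_sub_nf r W)
  | zero => simp
  | add x y _ _ hx hy =>
    rw [map_add, map_add, add_sub_add_comm]
    exact Submodule.add_mem _ hx hy
  | smul a x _ hx =>
    rw [map_smul, map_smul, ← smul_sub]
    exact Submodule.smul_mem _ _ hx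

theorem tau_support {n : ℕ} {s : FreeAlgebra k (Fin 3)} (hs : s ∈ P n) :
    tau s ∈ Finsupp.supported k k {q : List Bool × ℕ | n ≤ q.1.length} := by
  induction hs using Submodule.span_induction with
  | mem x hx =>
    obtain ⟨W, hW, rfl⟩ := hx
    rw [tau_mon]
    refine Finsupp.single_mem_supported _ _ ?_
    simpa [und] using hW
  | zero => simp
  | add x y _ _ hx hy =>
    rw [map_add]
    exact Submodule.add_mem _ hx hy
  | smul a x _ hx =>
    rw [map_smul]
    exact Submodule.smul_mem _ _ hx

/-- If an element of `P n` kills all words of length `n` then modulo the kernel it is in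
`P (n+1)`. -/
theorem raise {n : ℕ} {s : FreeAlgebra k (Fin 3)} (hs : s ∈ P n)
    (h : ∀ u : List Bool, u.length = n → val r s u = 0) : s ∈ N r (n + 1) := by
  have h1 : tau s ∈ Finsupp.supported k k {q : List Bool × ℕ | n + 1 ≤ q.1.length} := by
    rw [Finsupp.mem_supported]
    intro q hq
    have h2 := (Finsupp.mem_supported _ _).1 (tau_support hs) hq
    rcases (show n ≤ q.1.length from h2).lt_or_eq with h3 | h3
    · exact h3
    · exfalso
      have h4 := val_coeff r hs q.1 h3.symm q.2
      rw [h _ h3.symm, Polynomial.coeff_zero] at h4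
      rw [Finset.mem_coe, Finsupp.mem_support_iff] at hq
      exact hq h4.symm
  have h2 : sig (tau s) ∈ P (n + 1) := by
    rw [sig, Finsupp.linearCombination_apply, Finsupp.sum]
    refine Submodule.sum_mem _ fun q hq => Submodule.smul_mem _ _ (mon_mem_P ?_)
    rw [nf_length]
    exact (Finsupp.mem_supported _ _).1 h1 hq
  have h3 := sub_sig_mem r hs
  have h4 := Submodule.add_mem _ h3 (P_le_N r _ h2)
  rwa [sub_add_cancel] at h4

theorem exists_lead {s : FreeAlgebra k (Fin 3)} (hs : ρ r s ≠ 0) :
    ∃ (n : ℕ) (t : FreeAlgebra k (Fin 3)) (u : List Bool),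
      t ∈ P n ∧ ρ r t = ρ r s ∧ u.length = n ∧ val r t u ≠ 0 := by
  by_contra hcon
  push Not at hcon
  have h : ∀ n, s ∈ N r n := by
    intro n
    induction n with
    | zero => exact P_le_N r 0 (mem_P_zero s)
    | succ n ih =>
      obtain ⟨t, ht, e⟩ := (mem_N r).1 ih
      have := raise r ht fun u hu => hcon n t u ht e hu
      rw [mem_N] at this ⊢
      obtain ⟨t', ht', e'⟩ := this
      exact ⟨t', ht', e'.trans e⟩
  apply hs
  refine LinearMap.ext fun v => ?_
  obtain ⟨n, hn⟩ := mem_some_F v
  obtain ⟨t, ht, e⟩ := (mem_N r).1 (h n)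
  have h2 := ρ_P_low r ht n v hn
  rw [Nat.sub_self, F_zero_iff, e] at h2
  exact h2

theorem P_lead {n : ℕ} {s : FreeAlgebra k (Fin 3)} (hs : s ∈ P n) (u w : List Bool)
    (hu : u.length = n) :
    ρ r s (Finsupp.single (u.reverse ++ w) 1) - val r s u • Finsupp.single w 1 ∈ F w.length := by
  induction hs using Submodule.span_induction with
  | mem x hx =>
    obtain ⟨W, hW, rfl⟩ := hx
    rw [val_mon r W u (by rw [hu]; exact hW)]
    rcases (show n ≤ W.length from hW).lt_or_eq with h | h
    · have h1 : (lcoef W u : k[X]) = 0 := by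
        rw [lcoef, if_neg]
        intro h2
        rw [← h2] at hu
        simp [und] at hu
        omega
      rw [h1, zero_smul, sub_zero]
      have h2 := ρ_mon_low r W ((u.reverse ++ w).length + 1) _
        (single_mem_F (Nat.lt_succ_self _) (1 : k[X]))
      refine F_mono ?_ h2
      simp only [List.length_append, List.length_reverse]
      omega
    · exact mon_lead r W u w (by rw [hu, h])
  | zero => simp [val]
  | add x y _ _ hx hy =>
    have h1 : val r (x + y) u = val r x u + val r y u := by
      rw [val, val, val, map_add, LinearMap.add_apply, Finsupp.add_apply]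
    rw [map_add, h1, add_smul, LinearMap.add_apply, add_sub_add_comm]
    exact Submodule.add_mem _ hx hy
  | smul a x _ hx =>
    have h0 : ρ r (a • x) = (C a : k[X]) • ρ r x := by
      rw [map_smul, ← Polynomial.algebraMap_eq, algebraMap_smul]
    have h1 : val r (a • x) u = C a * val r x u := by
      rw [val, val, h0]
      simp
    rw [h0, h1, LinearMap.smul_apply, mul_smul, ← smul_sub]
    exact Submodule.smul_mem _ _ hx

theorem ρ_mul_ne_zero {s t : FreeAlgebra k (Fin 3)} (hs : ρ r s ≠ 0) (ht : ρ r t ≠ 0) :
    ρ r s * ρ r t ≠ 0 := by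
  obtain ⟨n, s', u, hs', es, hu, hvs⟩ := exists_lead r hs
  obtain ⟨m, t', v, ht', et, hv, hvt⟩ := exists_lead r ht
  intro h0
  have h1 := P_lead r ht' v u.reverse hv
  have h2 := ρ_P_low r hs' _ _ h1
  rw [List.length_reverse, hu, Nat.sub_self, F_zero_iff, map_sub, ← Module.End.mul_apply, es, et,
    h0, LinearMap.zero_apply, zero_sub, neg_eq_zero, map_smul] at h2
  have h3 := DFunLike.congr_fun h2 []
  rw [Finsupp.smul_apply, ← es] at h3
  exact mul_ne_zero hvt hvs h3

end Ops

end

section Final

variable {k : Type u} [Field k] (r : ℕ → FreeAlgebra k (Fin 3))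

noncomputable instance ringRange : Ring (ρ r).range := @Subalgebra.toRing k (Op k) _ _ _ (ρ r).range

theorem countable_free [Countable k] : Countable (FreeAlgebra k (Fin 3)) := by
  have h : Countable (List Bool × ℕ →₀ k) := inferInstance
  have h2 : Countable (FreeMonoid (Fin 3)) := inferInstanceAs (Countable (List (Fin 3)))
  have h3 : Countable (FreeMonoid (Fin 3) →₀ k) := inferInstance
  exact ((FreeAlgebra.equivMonoidAlgebraFreeMonoid (R := k) (X := Fin 3)).toLinearEquiv.trans
    (MonoidAlgebra.coeffLinearEquiv k)).injective.countable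

theorem yo_mem : (yo : Op k) ∈ (ρ r).range := ⟨gy, ρ_y r⟩

theorem yo_ne_zero : (yo : Op k) ≠ 0 := by
  intro h
  have h1 := LinearMap.congr_fun h (Finsupp.single [true] 1)
  rw [yo_true, LinearMap.zero_apply, Finsupp.single_eq_zero] at h1
  exact one_ne_zero h1

theorem yo_mem_jacobson (hr : Function.Surjective r) :
    (⟨yo, yo_mem r⟩ : (ρ r).range) ∈ Ring.jacobson (ρ r).range := by
  rw [← Ideal.jacobson_bot, Ideal.mem_jacobson_iff]
  rintro ⟨_, s, rfl⟩
  obtain ⟨j, hj⟩ := hr (-s)
  refine ⟨⟨ρ r (∑ i ∈ Finset.range (j + 3), (r j * gy) ^ i + rel j), _, rfl⟩, ?_⟩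
  rw [Ideal.mem_bot]
  have h := exists_inv r j
  set g := ρ r (∑ i ∈ Finset.range (j + 3), (r j * gy) ^ i + rel j)
  rw [hj] at h
  have h1 : ρ r (-s * gy) = - (ρ r s * yo) := by
    rw [neg_mul, map_neg, map_mul, ρ_y]
  rw [h1] at h
  apply Subtype.ext
  have h2 : g * ρ r s * yo + g - 1 = 0 := by
    have h3 : g * (1 - -(ρ r s * yo)) = g * ρ r s * yo + g := by
      refine LinearMap.ext fun v => ?_
      simp only [Module.End.mul_apply, LinearMap.sub_apply, LinearMap.neg_apply,
        LinearMap.add_apply, Module.End.one_apply, sub_neg_eq_add, map_add]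
      rw [add_comm]
    rw [← h3, h]
    exact sub_self (G := Op k) 1
  exact h2

end Final

/-- **Theorem.** Over every countable field there is a finitely generated domain whose Jacobson
radical is nonzero. -/
theorem result : ∀ (k : Type u) [Field k] [Countable k],
    ∃ (R : Type u) (_ : Ring R) (_ : Algebra k R),
      Algebra.FiniteType k R ∧ IsDomain R ∧ Ring.jacobson R ≠ ⊥ := by
  intro k _ _
  have hc : Countable (FreeAlgebra k (Fin 3)) := countable_free
  obtain ⟨r, hr⟩ := exists_surjective_nat (FreeAlgebra k (Fin 3))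
  refine ⟨(ρ r).range, inferInstance, inferInstance, ?_, ?_, ?_⟩
  · exact Algebra.FiniteType.of_surjective (ρ r).rangeRestrict (ρ r).rangeRestrict_surjective
  · have h1 : Nontrivial (ρ r).range := ⟨⟨⟨yo, yo_mem r⟩, 0, fun h =>
      yo_ne_zero (k := k) (congrArg Subtype.val h)⟩⟩
    have h2 : NoZeroDivisors (ρ r).range := by
      refine ⟨?_⟩
      rintro ⟨_, s, rfl⟩ ⟨_, t, rfl⟩ h
      have h3 := congrArg Subtype.val h
      by_contra hcon
      push Not at hcon
      refine ρ_mul_ne_zero r (s := s) (t := t) ?_ ?_ h3
      · intro h4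
        exact hcon.1 (Subtype.ext h4)
      · intro h4
        exact hcon.2 (Subtype.ext h4)
    exact NoZeroDivisors.to_isDomain _
  · intro h
    have h1 := yo_mem_jacobson r hr
    rw [h, Submodule.mem_bot] at h1
    exact yo_ne_zero (k := k) (congrArg Subtype.val h1)

end Pool.Agent.Results.MP_2e9a62_al.FGDomain
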